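import Pool.Agent.Helper82.PEGFinal

set_option autoImplicit false

namespace Pool.Agent.Results.MP_bdbe41_lc.NotClosedConcat

open Pool.Agent.Helper82.PEG

/-- Parsing expression languages are not closed under concatenation: over some finite alphabet
there is a parsing expression language `L` such that `L` followed by the language `⊤` of all words
(itself a parsing expression language) is not a parsing expression language. -/
theorem result : ∃ (T : Type) (_ : Finite T) (L : Language T),
    IsPEL L ∧ IsPEL (⊤ : Language T) ∧ ¬ IsPEL (L * (⊤ : Language T)) :=
  ⟨Sym, inferInstance, L₁, isPEL_L₁, isPEL_top, not_isPEL⟩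

end Pool.Agent.Results.MP_bdbe41_lc.NotClosedConcat
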